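import Pool.Agent.H56.OscJ

namespace Pool.Agent.Results.MP_38ba9c_an.Md

open Pool.Agent.H56.Osc Filter Topology Real

/-- `M_d = 1 + √d`. -/
theorem result (d : ℕ) (hd : 1 ≤ d) (c : ℝ) (hc : 0 < c) :
    IsLUB {x : ℝ | ∃ A : Matrix (Fin d) (Fin d) ℝ, A.PosDef ∧ x = c * Kopt A c} (1 + √d) :=
  (Pool.Agent.H56.OscJ.joined d hd).1 c hc

end Pool.Agent.Results.MP_38ba9c_an.Md
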